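import Pool.Agent.H25.CFL.Targets

/-!
# KX: the argument of Ketonen for positive sets
-/

open Ordinal Cardinal Order Set
open scoped ZFSet

universe u

namespace Pool.Agent.H4.HCL

open _root_.HD Pool.Agent.H25.CFL
open Pool.Agent.H17.HD.HB (pos_const)

/-- the infimum of a definable family of sets -/
theorem kx_sInf {R : Ordinal.{u} → Ordinal.{u} → Prop} (hR : DR R) :
    DR fun a b => b = sInf {y | R a y} := by
  have h4 : DO fun w => (R (w 0) (w 1) ∧ ∀ y, y < w 1 → ¬ R (w 0) y) ∨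
      ((∀ y, ¬ R (w 0) y) ∧ w 1 = 0) := by
    refine DO.or (DO.and hR ?_) (DO.and ?_ (DO.eqc 1 0))
    · exact DO.all (R := fun y w => y < w 1 → ¬ R (w 0) y)
        ((DO.lt 0 2).imp (hR.s2 1 0).not)
    · exact DO.all (R := fun y w => ¬ R (w 0) y) (hR.s2 1 0).not
  refine h4.congr fun w => ?_
  change w 1 = sInf {x | R (w 0) x} ↔ _
  constructor
  · intro h
    rcases Set.eq_empty_or_nonempty {x | R (w 0) x} with he | he
    · refine Or.inr ⟨fun y hy => ?_, ?_⟩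
      · have : y ∈ {x | R (w 0) x} := hy
        rw [he] at this
        exact this
      · rw [h, he, Ordinal.sInf_empty]
    · refine Or.inl ?_
      rw [h]
      exact ⟨csInf_mem he, fun y hy hS' => notMem_of_lt_csInf' hy hS'⟩
  · rintro (⟨ha, hb⟩ | ⟨ha, hb⟩)
    · refine le_antisymm ?_ (csInf_le' ha)
      by_contra hc
      exact hb _ (not_le.1 hc) (csInf_mem (s := {x | R (w 0) x}) ⟨_, ha⟩)
    · have he : {x | R (w 0) x} = ∅ := by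
        ext y
        exact ⟨fun hy => absurd hy (ha y), fun hy => absurd hy (Set.notMem_empty y)⟩
      rw [hb, he, Ordinal.sInf_empty]

/-- the bad points -/
def kxB (h : Ordinal.{u} → Ordinal.{u}) (c : Ordinal.{u} → Ordinal.{u} → Ordinal.{u})
    (S : Set Ordinal.{u}) (ξ b : Ordinal.{u}) : Set Ordinal.{u} :=
  {x | x ∈ S ∧ ∀ j < h x, ¬ (ξ ≤ c x j ∧ c x j < b)}

theorem kxB_do {h : Ordinal.{u} → Ordinal.{u}} {c : Ordinal.{u} → Ordinal.{u} → Ordinal.{u}}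
    (hc : HC h c) {S : Set Ordinal.{u}} (hS : DS S) :
    DO fun w => w 0 ∈ kxB h c S (w 1) (w 2) := by
  refine (DO.and hS (DO.all (R := fun j w => (∃ z, z = h (w 0) ∧ j < z) →
    ∀ y, y = c (w 0) j → ¬ (w 1 ≤ y ∧ y < w 2)) (DO.imp ?_ ?_))).congr fun w => ?_
  · refine DO.ex (R := fun z w => z = h (w 1) ∧ w 0 < z) ?_
    exact (DO.s2 (X := fun x y => y = h x) hc.dh 2 0).and (DO.lt 1 0)
  · refine DO.all (R := fun y w => y = c (w 1) (w 0) → ¬ (w 2 ≤ y ∧ y < w 3)) ?_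
    refine DO.imp ?_ ((DO.le 3 0).and (DO.lt 0 4)).not
    exact DO.s3 (X := fun x j y => y = c x j) hc.dc 2 1 0
  · constructor
    · rintro ⟨h1, h2⟩
      refine ⟨h1, fun j hj y hy => ?_⟩
      obtain ⟨z, rfl, hz⟩ := hj
      rw [hy]
      exact h2 j hz
    · rintro ⟨h1, h2⟩
      exact ⟨h1, fun j hj => h2 j ⟨_, rfl, hj⟩ _ rfl⟩

theorem kx_f {h : Ordinal.{u} → Ordinal.{u}} {c : Ordinal.{u} → Ordinal.{u} → Ordinal.{u}}
    (hc : HC h c) (ξ : Ordinal.{u}) :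
    DR fun x y => ∃ j, j < h x ∧ y = c x j ∧ ξ ≤ y := by
  refine (DO.ex (R := fun j w => (∃ z, z = h (w 0) ∧ j < z) ∧ w 1 = c (w 0) j ∧ ξ ≤ w 1)
    (DO.and ?_ (DO.and ?_ (DO.gec 2 ξ)))).congr fun w => ?_
  · refine DO.ex (R := fun z w => z = h (w 1) ∧ w 0 < z) ?_
    exact (DO.s2 (X := fun x y => y = h x) hc.dh 2 0).and (DO.lt 1 0)
  · exact DO.s3 (X := fun x j y => y = c x j) hc.dc 1 0 2
  · constructor
    · rintro ⟨j, h1, h2⟩
      exact ⟨j, ⟨_, rfl, h1⟩, h2⟩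
    · rintro ⟨j, ⟨z, rfl, h1⟩, h2⟩
      exact ⟨j, h1, h2⟩

theorem pf_KX (hWN : T_WN.{u}) (hKI : T_KI.{u}) (hDA : T_DA.{u}) (hVA : T_VA.{u})
    (hVB : T_VB.{u}) (hVH : T_VH.{u}) : T_KX.{u} := by
  intro M lam h c hSt S hS hSl
  have hc := hSt.hc
  have hlim : IsSuccLimit lam := hSt.reg.1
  have hcof : ℵ₀ < lam.cof := hSt.mreg.aleph0_le.trans_lt hSt.mlt
  -- the relation
  have hD : DR fun ξ b => ¬ Pos M.ord lam (kxB h c S ξ b) := by
    refine DO.not ?_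
    exact pos_const hDA M.ord lam (Y := fun x w => x ∈ kxB h c S (w 0) (w 1)) (kxB_do hc hS)
  -- something below `lam` works
  have h2 : ∀ ξ < lam, ∃ b < lam, ¬ Pos M.ord lam (kxB h c S ξ b) := by
    intro ξ hξ
    have hne : ∀ x ∈ S, ξ < x → ∃ j, j < h x ∧ c x j < x ∧ ξ ≤ c x j := by
      intro x hx hξx
      obtain ⟨i, hi, hi'⟩ := hc.unb x (hSl x hx) ξ hξx
      exact ⟨i, hi, hc.lt x (hSl x hx) i hi, hi'⟩
    obtain ⟨b, hb, hbn⟩ := hWN M lam hSt.mreg hSt.reg hSt.mlt hSt.ns {x | x ∈ S ∧ ξ < x}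
      (fun x => sInf {y | ∃ j, j < h x ∧ y = c x j ∧ ξ ≤ y})
      (DO.and hS (DO.gtc 0 ξ)) (kx_sInf (kx_f hc ξ)) (by
        rintro x ⟨hx, hξx⟩ - -
        obtain ⟨j, hj, hjx, hξj⟩ := hne x hx hξx
        exact (csInf_le' (s := {y | ∃ j, j < h x ∧ y = c x j ∧ ξ ≤ y})
          ⟨j, hj, rfl, hξj⟩).trans_lt hjx)
    refine ⟨b, hb, fun hp => ?_⟩
    refine null_union hVA hcof hbn (hVB M.ord lam (succ ξ) hlim (hlim.succ_lt hξ))
      (hp.mono fun x _ hx _ => ?_)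
    rcases le_or_gt x ξ with hx' | hx'
    · exact Or.inr (Order.lt_succ_of_le hx')
    · refine Or.inl ⟨⟨hx.1, hx'⟩, ?_⟩
      obtain ⟨j, hj, -, hξj⟩ := hne x hx.1 hx'
      obtain ⟨j', hj', he, hξ'⟩ := csInf_mem (s := {y | ∃ j, j < h x ∧ y = c x j ∧ ξ ≤ y})
        ⟨_, j, hj, rfl, hξj⟩
      by_contra hcon
      refine hx.2 j' hj' ⟨?_, ?_⟩
      · rw [← he]; exact hξ'
      · rw [← he]; exact not_le.1 hcon
  have h3 : ∀ ξ < lam, ¬ Pos M.ord lam (kxB h c S ξ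
      (sInf {b | ¬ Pos M.ord lam (kxB h c S ξ b)})) := by
    intro ξ hξ
    obtain ⟨b, -, hb⟩ := h2 ξ hξ
    exact csInf_mem (s := {b | ¬ Pos M.ord lam (kxB h c S ξ b)}) ⟨b, hb⟩
  obtain ⟨hI, hIi⟩ := hKI lam (fun ξ => sInf {b | ¬ Pos M.ord lam (kxB h c S ξ b)}) hcof hSt.reg
    (kx_sInf hD) (fun ξ hξ => by
      obtain ⟨b, hb, hbn⟩ := h2 ξ hξ
      exact (csInf_le' (s := {b | ¬ Pos M.ord lam (kxB h c S ξ b)}) hbn).trans_lt hb)
    (fun ζ ξ hζ hξ => by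
      refine csInf_le' (s := {b | ¬ Pos M.ord lam (kxB h c S ζ b)}) ?_
      intro hp
      refine h3 ξ hξ (hp.mono fun x _ hx _ => ⟨hx.1, fun j hj hcon => ?_⟩)
      exact hx.2 j hj ⟨hζ.trans hcon.1, hcon.2⟩)
  refine ⟨_, hI, fun x hx => hx.1, hIi, fun i z z' hz hz' hp => ?_⟩
  have h1 : z < z' := ((hVH _).2.1 _ _ _ _ hz hz').1 (lt_succ i)
  have h4 : sInf {b | ¬ Pos M.ord lam (kxB h c S z b)} ≤ z' := hz'.1.2 z h1
  refine h3 z hz.1.1 (hp.mono fun x _ hx _ => ⟨hx.1, fun j hj hcon => ?_⟩)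
  exact hx.2 j hj ⟨hcon.1, hcon.2.trans_le h4⟩

end Pool.Agent.H4.HCL
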